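import Pool.Agent.N162.GP.Stm
import Pool.Agent.N80.HN.Conf
import Pool.Agent.N543.HN.Comb

/-!
# GP/PRJ: good projections (helper2; from N80/HN/Conf of helper80 and N543/HN/Comb of helper543)
-/

set_option autoImplicit false

open FF Pool.Agent.W603.LV Pool.Agent.Y184.NT Pool.Agent.N162.BC MvPolynomial IntermediateField

namespace Pool.Agent.N2.GP

open Pool.Agent.N162.HN Pool.Agent.N80.HN
open Pool.Agent.N162.CV (PRel MonicY ge_aeval ge_of_eval eval_zero_of)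
open Pool.Agent.N543.HN (fpq fpq_ne fpq_eval)

/-- finitely many points of the curves on a surface which contains none of them -/
theorem fin_clause {n : ℕ} {Ω : Type} [Field Ω] (hC1 : StC1) (hALG : Pool.Agent.N162.CV.StALG)
    [IsAlgClosed Ω] [CharZero Ω] {r : ℕ} (C : Fin r → Crv n Ω)
    {A : Fin n → MvPolynomial (Fin 2) Ω}
    (hcov : ∀ p : Fin (n + 2) → Ω, p 0 = 1 → (∀ l : Fin n, eval ![p 1, p l.succ.succ] (A l) = 0) →
      ∃ i, (C i).On p) {t : Ω} {G : Fin r → MvPolynomial (Fin 2) Ω}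
    (hG : ∀ i, Irreducible (G i))
    (hGX : ∀ i, aeval (pr (algebraMap Ω (C i).E t) (C i).X) (G i) = 0)
    (P : MvPolynomial (Fin 2) Ω) (hP : ∀ i, ¬ G i ∣ P) :
    {p : Fin (n + 2) → Ω | p 0 = 1 ∧ (∀ l, eval ![p 1, p l.succ.succ] (A l) = 0) ∧
      eval (pr t p) P = 0}.Finite := by
  classical
  obtain ⟨Q, hQ, hQe⟩ := exists_form (n := n) t P.totalDegree P le_rfl
  have hQp : ∀ p : Fin (n + 2) → Ω, p 0 = 1 → eval p Q = eval (pr t p) P := by
    intro p hp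
    exact hQe Ω p hp
  have hne : ∀ i, aeval (C i).X Q ≠ 0 := by
    intro i h
    rw [hQe (C i).E (C i).X (C i).good.one] at h
    have hP0 : P ≠ 0 := by
      rintro rfl
      exact hP i (dvd_zero _)
    have h1 := hALG Ω (C i).E (G i) P (hG i).ne_zero hP0
      (Pool.Agent.N80.HN.relPrime_of_not_dvd (hG i) (hP i)) _ (hGX i) h 0
    exact (C i).good.tr h1
  have hkey := fun i => hC1 n Ω (C i).E (C i).X (C i).good (aeval (C i).X Q) P.totalDegree (hne i)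
      (fun v hv => ge_aeval ((C i).good.fin v hv) _) (fun v hv => good_ord (C i).good hQ v hv)
  have hfin : ∀ i, {p : Fin (n + 2) → Ω | mu (C i).X (aeval (C i).X Q) p ≠ 0}.Finite :=
    fun i => (hkey i).2.2.1
  refine (Set.finite_iUnion hfin).subset ?_
  rintro p ⟨hp0, hpA, hpP⟩
  obtain ⟨i, v, hv⟩ := hcov p hp0 hpA
  rw [Set.mem_iUnion]
  refine ⟨i, ?_⟩
  refine ((hkey i).2.1 p).2 ⟨v, hv, ?_⟩
  rcases ge_of_eval hv ((hQp p hp0).trans hpP) with h3 | h3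
  · exact absurd h3 (hne i)
  · omega

/-- GP/PRJ -/
theorem prj_ (hC1 : Pool.Agent.N162.HN.StC1) (hALG : Pool.Agent.N162.CV.StALG) :
    Pool.Agent.N162.GP.StPRJ := by
  classical
  intro M r Ω _ _ _ A C hM hA hC Γ hΓ
  obtain ⟨bad, hbad⟩ := hC.proj Γ hΓ
  obtain ⟨bad2, hbad2⟩ : ∃ bad2 : Finset Ω, bad2 = (Γ ×ˢ Γ).biUnion
      fun q => (fpq q.1 q.2).roots.toFinset := ⟨_, rfl⟩
  obtain ⟨t, ht⟩ : ∃ t : Ω, t ∉ bad ∪ bad2 := Infinite.exists_notMem_finset _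
  rw [Finset.notMem_union] at ht
  obtain ⟨G, hG1, hG2, hG3⟩ := hbad _ ht.1
  refine ⟨t, G, ⟨fun i => (hG1 i).1, fun i => (hG1 i).2.1, fun i => (hG1 i).2.2.1, hG2,
    fun i p hp => ⟨fun h => hG3 i p hp h, ?_⟩, ?_⟩, ?_⟩
  · rintro ⟨v, hv⟩
    refine eval_zero_of (at_pr hv t) ?_
    rw [(hG1 i).2.2.2]
    exact Ge.zero
  · intro P hP
    exact fin_clause hC1 hALG C hC.cov (fun i => (hG1 i).1) (fun i => (hG1 i).2.2.2) P hP
  · intro p hp q hq hpq
    by_contra hne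
    apply ht.2
    rw [hbad2]
    refine Finset.mem_biUnion.2 ⟨(p, q), Finset.mem_product.2 ⟨hp, hq⟩, ?_⟩
    rw [Multiset.mem_toFinset, Polynomial.mem_roots (fpq_ne ((hΓ p hp).trans (hΓ q hq).symm)
      (congrFun hpq 0) hne)]
    exact fpq_eval p q t hpq

end Pool.Agent.N2.GP
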